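import Pool.Agent.Helper77.G.Asm
import Pool.Agent.Helper33.G.Snake
import Pool.Agent.Helper74.WPP.Main

/-!
# Theorem D* for MP_5165fa (Geelen): definitions and statements of the rows

Few conflicts in the sense `|C₁ ∩ D₂| ≤ δ n ^ 4`.
-/

open Set BIC
open scoped Matroid

namespace BICS

universe u

/-- the vertex set of the tile of the cell `c` (side `s`, cells of side `w`, offsets `o`, `o'`) -/
def tl (x y w o o' s : ℕ) (c : ℕ × ℕ) : Set (ℕ × ℕ) :=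
  rect (x + c.1 * w + o) (y + c.2 * w + o') s s

/-- the cells of the board -/
def cells (T : ℕ) : Finset (ℕ × ℕ) := Finset.range T ×ˢ Finset.range T

/-- A lane on the vertex set `W`: a path through (some labels of) `W` with rung sections of width
`q` at the positions `a 0 < a 1 < ... < a N`; the tile `τ t` lies between the sections `t` and
`t + 1` (`t < N`). -/
def Lane {α : Type*} (S : Set α) (ends : α → Sym2 (ℕ × ℕ)) (W : Set (ℕ × ℕ)) (q N : ℕ)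
    (τ : ℕ → Set (ℕ × ℕ)) : Prop :=
  ∃ (pos : ℕ × ℕ → ℕ) (el : ℕ → α) (L : ℕ) (a : ℕ → ℕ) (R : ℕ → ℕ → α),
    InjOn pos W ∧ C1Q.Snake (ins S ends W) (fun e => (ends e).map pos) el L ∧
    (∀ t ≤ N, a t + 2 * q ≤ L ∧
      C1Q.Rungs (ins S ends W) (fun e => (ends e).map pos) (R t) (a t) q) ∧
    (∀ t < N, a t + 2 * q + 1 < a (t + 1)) ∧
    ∀ t < N, ins S ends (τ t) ⊆
      ins (ins S ends W) (fun e => (ends e).map pos) (Ico (a t + 2 * q) (a (t + 1)))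

/-- ROW GEO (needs `2 ≤ q`, `1 ≤ s`, `s ≤ q`).
`k` disjoint lanes through prescribed cells of a board of `T × T` cells. -/
def LanesStmt (k q s : ℕ) : Prop :=
  ∃ w o o' : ℕ, s < w ∧ o + s ≤ 2 * w ∧ o' + s ≤ 2 * w ∧
    ∀ {α : Type u} {S : Set α} {ends : α → Sym2 (ℕ × ℕ)} {x y m T : ℕ},
      Grd S ends x y m m → (T + 1) * w ≤ m → ∀ g : ℕ × ℕ → Option (Fin k),
      ∃ W : Fin k → Set (ℕ × ℕ),
        (∀ i j, i ≠ j → Disjoint (W i) (W j)) ∧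
        (∀ c ∈ cells T, g c = none → ∀ i, Disjoint (tl x y w o o' s c) (W i)) ∧
        ∀ i, ∃ (N : ℕ) (c : ℕ → ℕ × ℕ),
          BijOn c (Iio N) {c | c ∈ cells T ∧ g c = some i} ∧
          ∀ N', N = N' + 1 → Lane S ends (W i) q N' (fun t => tl x y w o o' s (c t))

/-- ROW Q + ST. One step of the construction with a lane. -/
def StStmt : Prop :=
  ∀ {α : Type u} {L N : Matroid α} [L.Finite] [N.Finite] {S : Set α} {ends : α → Sym2 (ℕ × ℕ)}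
    {k u q N' : ℕ}, 1 ≤ k → Bic N S ends → S ⊆ L.E → Quo L N S →
    ∀ {C E : Set α} {U W : Set (ℕ × ℕ)}, C1Q.St L N S ends k u C E U → k ≤ E.ncard →
    E.ncard ≤ 2 * k → Disjoint U W → ∀ {τ : ℕ → Set (ℕ × ℕ)}, Lane S ends W q N' τ →
    C1Q.Q0 (2 ^ (2 * k)) ≤ q → ∀ gr : ℕ → Finset ℕ,
    (∀ p < 2 ^ (2 * k), gr p ⊆ Finset.Ico 1 N') →
    (∀ p < 2 ^ (2 * k), ∀ p' < 2 ^ (2 * k), p ≠ p' → Disjoint (gr p) (gr p')) →
    (∀ p < 2 ^ (2 * k), rk N (⋃ t ∈ gr p, ins S ends (τ t)) + u ≤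
      rk L (⋃ t ∈ gr p, ins S ends (τ t))) →
    ∃ C' E', C1Q.St L N S ends k u C' E' (U ∪ W) ∧ E'.ncard = E.ncard + 1

/-- ROW SCAT (over GEO and ST; needs `1 ≤ k`, `1 ≤ s`). -/
def ScatStmt (k s : ℕ) : Prop :=
  ∃ w o o' β : ℕ, s < w ∧ o + s ≤ 2 * w ∧ o' + s ≤ 2 * w ∧
    ∀ {α : Type u} (L N : Matroid α) [L.Finite] [N.Finite] (S : Set α)
      (ends : α → Sym2 (ℕ × ℕ)) (x y m T : ℕ), S ⊆ L.E → Bic N S ends → Grd S ends x y m m →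
      Quo L N S → (T + 1) * w ≤ m → rk L S ≤ rk N S + k →
      (∀ A ⊆ cells T, A.card ≤ β →
        rk N (⋃ c ∈ cells T \ A, ins S ends (tl x y w o o' s c)) + k ≤
          rk L (⋃ c ∈ cells T \ A, ins S ends (tl x y w o o' s c))) →
      HasUniformMinor L k

/-- ROW ESS. Essentially independent sets of conflicting elements. -/
def EssStmt : Prop :=
  ∀ {α : Type u} (M : Matroid α) [M.Finite] (C H : Set α), M.Indep C → H ⊆ C →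
    ∀ (k β : ℕ), 1 ≤ k → ∀ (I : Finset (ℕ × ℕ)) (X : ℕ × ℕ → Set α),
    (∀ i ∈ I, X i ⊆ M.E \ C) →
    (∃ K ⊆ H, K.ncard = k ∧ ∀ A ⊆ I, A.card ≤ β →
      rk (M ／ C) (⋃ i ∈ I \ A, X i) + k ≤ rk (M ／ (C \ K)) (⋃ i ∈ I \ A, X i)) ∨
    ∃ Bc : α → Finset (ℕ × ℕ), (∀ c, Bc c ⊆ I ∧ (Bc c).card ≤ β) ∧
      ∀ i ∈ I, rk (M ／ (C \ {c | c ∈ H ∧ i ∉ Bc c})) (X i) + 1 ≤ rk (M ／ C) (X i) + k

/-- ROW ADD. The defects of sets of conflicting elements add up. -/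
def AddStmt : Prop :=
  ∀ {α : Type u} (M : Matroid α) [M.Finite] (C F F' X : Set α), M.Indep C → X ⊆ M.E \ C →
    rk (M ／ (C \ (F ∪ F'))) X + rk (M ／ C) X ≤ rk (M ／ (C \ F)) X + rk (M ／ (C \ F')) X

/-- ROW BAS. Passing to an independent set of contracted elements. -/
def BasStmt : Prop :=
  ∀ {α : Type u} (M : Matroid α) [M.Finite] (C F : Set α), C ⊆ M.E →
    ∃ C' ⊆ C, M.Indep C' ∧
      (∀ (E : Set α) (ends : α → Sym2 (ℕ × ℕ)), Bic (M ／ C) E ends → Bic (M ／ C') E ends) ∧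
      (∀ X ⊆ M.E \ C, rk (M ／ C') X = rk (M ／ C) X) ∧
      ∀ X ⊆ M.E \ C, rk (M ／ (C' \ F)) X = rk (M ／ (C \ F)) X

/-- ROW DS. Theorem D* over plain grids. -/
def DsStmt (k : ℕ) : Prop :=
  ∀ q : ℕ, ∃ Λ : ℕ, ∀ n ≥ Λ, ∀ {α : Type u} (M : Matroid α) [M.Finite]
    (E₁ E₂ C₁ D₂ F G H : Set α) (e₁ e₂ : α → Sym2 (ℕ × ℕ)) (x y x' y' : ℕ),
    E₁ ⊆ M.E → E₂ ⊆ M.E → Disjoint E₁ E₂ → C₁ ⊆ M.E \ E₁ → D₂ ⊆ M.E \ E₂ →
    Bic (M ／ C₁) E₁ e₁ → Grd E₁ e₁ x y n n → Bic (M✶ ／ D₂) E₂ e₂ → Grd E₂ e₂ x' y' n n →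
    C₁ ∩ D₂ ⊆ F ∪ G ∪ H →
    rk (M ／ (C₁ \ F)) E₁ ≤ rk (M ／ C₁) E₁ + q →
    rk (M✶ ／ (D₂ \ G)) E₂ ≤ rk (M✶ ／ D₂) E₂ + q →
    Λ * (C₁ ∩ D₂ ∩ H).ncard ≤ n ^ 4 → KGe M E₁ E₂ Λ → HasUniformMinor M k

/-- ROW DK. The other kind of conflicting elements (few elements which are neither contracted for
the first nor deleted for the second minor). -/
def DkStmt (k : ℕ) : Prop :=
  ∃ Λ : ℕ, ∀ n ≥ Λ, ∀ {α : Type u} (M : Matroid α) [M.Finite]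
    (E₁ E₂ C₁ D₂ : Set α) (e₁ e₂ : α → Sym2 (ℕ × ℕ)) (x y x' y' : ℕ),
    E₁ ⊆ M.E → E₂ ⊆ M.E → Disjoint E₁ E₂ → C₁ ⊆ M.E \ E₁ → D₂ ⊆ M.E \ E₂ →
    Bic (M ／ C₁) E₁ e₁ → Grd E₁ e₁ x y n n → Bic (M✶ ／ D₂) E₂ e₂ → Grd E₂ e₂ x' y' n n →
    Λ * (M.E \ (E₁ ∪ E₂ ∪ C₁ ∪ D₂)).ncard ≤ n ^ 4 → KGe M E₁ E₂ Λ → HasUniformMinor M k

/-! ### The geometry rows -/

/-- a path in the grid -/
def IsPth (l : List (ℕ × ℕ)) : Prop := l.IsChain adj ∧ l.Nodup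

/-- a zone: a rung section of width `q`, then a part which contains the tile `t` -/
def Zone (q : ℕ) (z : List (ℕ × ℕ)) (t : Set (ℕ × ℕ)) : Prop :=
  (∀ j < q, ∃ p r, z[q - 1 - j]? = some p ∧ z[q + j]? = some r ∧ adj p r) ∧
    2 * q + 1 < z.length ∧ ∀ v ∈ t, v ∈ z.drop (2 * q)

/-- a list of vertices which passes through the zones of the tiles `ts`, in this order -/
inductive LaneL (q : ℕ) : List (ℕ × ℕ) → List (Set (ℕ × ℕ)) → Prop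
  | nil (l : List (ℕ × ℕ)) : LaneL q l []
  | snoc {l : List (ℕ × ℕ)} {ts : List (Set (ℕ × ℕ))} {z p : List (ℕ × ℕ)} {t : Set (ℕ × ℕ)} :
      LaneL q l ts → Zone q z t → LaneL q (l ++ z ++ p) (ts ++ [t])

/-- ROW GEO-D. From a list to a lane. -/
def ListStmt : Prop :=
  ∀ {α : Type u} {S : Set α} {ends : α → Sym2 (ℕ × ℕ)} {x y m q N' : ℕ}
    {l : List (ℕ × ℕ)} {ts : List (Set (ℕ × ℕ))}, Grd S ends x y m m → IsPth l →
    (∀ v ∈ l, v ∈ rect x y m m) → 1 ≤ q → LaneL q l ts → ts.length = N' + 1 →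
    Lane S ends {v | v ∈ l} q N' (fun t => ts.getD t ∅)

/-- ROW GEO-A. The lanes in one cell `[0, w) × [0, w)`; at both sides the lane number `h` has the
height `h`; the lane with `g = some h` passes through the zone of the tile. -/
def CellStmt (k q s : ℕ) : Prop :=
  ∃ w o o' : ℕ, w = 2 * o + s ∧ o' + s ≤ w ∧ 2 * k ≤ w ∧ 1 ≤ w ∧
    ∀ g : Option (Fin k), ∃ l : Fin k → List (ℕ × ℕ),
      (∀ h, IsPth (l h) ∧ (l h).head? = some (0, (h : ℕ)) ∧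
        (l h).getLast? = some (w - 1, (h : ℕ)) ∧ ∀ v ∈ l h, v ∈ rect 0 0 w w) ∧
      (∀ h h', h ≠ h' → (l h).Disjoint (l h')) ∧
      (∀ h, g ≠ some h → ∀ v ∈ l h, v ∉ rect o o' s s) ∧
      ∀ h, g = some h → ∃ p z p', l h = p ++ z ++ p' ∧ Zone q z (rect o o' s s)

/-- ROW GEO-B. The turn at the end of a band. -/
def TurnStmt (k w : ℕ) : Prop :=
  ∃ l : Fin k → List (ℕ × ℕ),
    (∀ h, IsPth (l h) ∧ (l h).head? = some (0, (h : ℕ)) ∧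
      (l h).getLast? = some (0, w + (k - 1 - (h : ℕ))) ∧ ∀ v ∈ l h, v ∈ rect 0 0 k (2 * w)) ∧
    ∀ h h', h ≠ h' → (l h).Disjoint (l h')

end BICS
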