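import Pool.Agent.Helper47.DS.St
import Pool.Agent.Helper21.DS.Scat
import Pool.Agent.Helper79.DS.Cell
import Pool.Agent.Helper56.DS.Turn
import Pool.Agent.Helper51.DS.ListLane
import Pool.Agent.Helper34.DS.Lanes
import Pool.Agent.Helper53.DS.Ess
import Pool.Agent.Helper63.DS.AddBas
import Pool.Agent.Helper29.DS.Dk

/-!
# Theorem D* over plain grids, both kinds (MP_5165fa)
-/

namespace BICS

universe u

theorem lanesStmt (k q s : ℕ) (hk : 1 ≤ k) (hq : 2 ≤ q) (hs : 1 ≤ s) (hkq : k + s ≤ q) :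
    LanesStmt.{u} k q s :=
  lanes_of k q s hk (by omega) (C79.cellStmt hq hs hkq) (fun w hw _ => turnStmt k w hw) listStmt

theorem scatStmt (k s : ℕ) (hk : 1 ≤ k) (hs : 1 ≤ s) : ScatStmt.{u} k s := by
  have h2 : 2 ≤ C1Q.Q0 (2 ^ (2 * k)) := by unfold C1Q.Q0; omega
  exact scat_of k s (C1Q.Q0 (2 ^ (2 * k)) + k + s) hk (by omega)
    (lanesStmt k _ s hk (by omega) hs (by omega)) stStmt

theorem dsStmt (k : ℕ) : DsStmt.{u} k :=
  dsStmt_of k (fun hk s hs => scatStmt k s hk hs) essStmt addStmt basStmt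

theorem dkStmt (k : ℕ) : DkStmt.{u} k := dkStmt_of k (dsStmt k) basStmt

end BICS
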