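import Pool.Agent.Helper47.DS.Defs

/-!
# Lemma Q for rung sections at arbitrary positions (Theorem D*, MP_5165fa)
-/

open Set BIC

namespace C1Q

variable {α : Type*} {S : Set α} {ends : α → Sym2 ℕ} {el : ℕ → α}
variable {ι : Type*} [Fintype ι]

/-- along any route there is a rung which keeps the conditions which are not aligned -/
lemma stepR {bal : ι → Set α → Prop} (hbal : ∀ i, Bal S ends (bal i)) {L : ℕ}
    (hs : Snake S ends el L) {R R' : ℕ → α} {a a' q : ℕ}
    (hR : Rungs S ends R a q) (hR' : Rungs S ends R' a' q) (hL : a' + 2 * q ≤ L)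
    {c : Set α} (hc : Ctx S ends el c a q)
    {E E' : Finset ℕ} (hE : ∀ j ∈ E, j < q) (hE' : ∀ j ∈ E', j < q)
    (hcl : ∀ i, bal i (T el R a q (P el a (a + q)) E) ∨
      Gen (fun F => bal i (T el R a q (P el a (a + q)) F)) E)
    (hEc : (Fintype.card ι + 1) * (Fintype.card ι + 1) ≤ E.card) (hEc' : 1 < E'.card)
    (haa : a + 2 * q ≤ a') {z : ℕ} {e : α} (hr : Route S ends z e (a + 2 * q) a') :
    ∃ c', Ctx S ends el c' a' q ∧ ∀ l, bal l (T el R' a' q c' E') →
      bal l (T el R a q c E) := by
  classical
  have hEs' : ∀ i ∈ (E' : Set ℕ), i < q := fun i hi => hE' i (Finset.mem_coe.1 hi)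
  obtain ⟨j₁, hj₁, j₂, hj₂, hne⟩ := Finset.one_lt_card.1 hEc'
  obtain ⟨F, hFE, hFc, hFi⟩ := indep_set
    (r := fun j y => ∃ l, ¬ bal l (T el R a q c E) ∧ bal l (T el R a q c {j, y}))
    (by
      rintro x y ⟨l, h1, h2⟩
      refine ⟨l, h1, ?_⟩
      rwa [Set.pair_comm])
    (Fintype.card ι) (Fintype.card ι + 1) E
    (fun x hx F hF h => deg hbal hs hR (by omega) hc hE hcl hx F hF h) hEc
  have hFne : F.Nonempty := by rw [← Finset.card_pos]; omega
  obtain ⟨j₀, hj₀⟩ := hFne
  have hgood : ∃ j ∈ F, ∀ l, ¬ bal l (T el R a q c E) →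
      ¬ bal l (T el R' a' q (nc el R a a' q c j z e) E') := by
    by_contra hcon
    push Not at hcon
    obtain ⟨i₀, _⟩ := hcon j₀ hj₀
    have : Inhabited ι := ⟨i₀⟩
    have hch : ∀ y, ∃ l : ι, y ∈ F → ¬ bal l (T el R a q c E) ∧
        bal l (T el R' a' q (nc el R a a' q c y z e) E') := by
      intro y
      by_cases hy : y ∈ F
      · obtain ⟨l, hl⟩ := hcon y hy
        exact ⟨l, fun _ => hl⟩
      · exact ⟨i₀, fun h => absurd h hy⟩
    choose f hf using hch
    have hle : F.card ≤ (Finset.univ : Finset ι).card := by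
      refine Finset.card_le_card_of_injOn f (fun _ _ => Finset.mem_coe.2 (Finset.mem_univ _)) ?_
      intro y hy y' hy' he
      have hy1 := Finset.mem_coe.1 hy
      have hy1' := Finset.mem_coe.1 hy'
      by_contra hne'
      obtain ⟨g1, g2⟩ := hf y hy1
      obtain ⟨g3, g4⟩ := hf y' hy1'
      rw [← he] at g3 g4
      have := atmost (hbal _) hs hR hR' hL hc hEs' (Finset.mem_coe.2 hj₁) (Finset.mem_coe.2 hj₂)
        hne (hE _ (hFE hy1)) (hE _ (hFE hy1')) hr g2 g4
      exact hFi y hy1 y' hy1' hne' ⟨_, g1, this⟩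
    rw [Finset.card_univ] at hle
    omega
  obtain ⟨j, hjF, hj⟩ := hgood
  refine ⟨nc el R a a' q c j z e, nc_sdr hs hR hL hc (hE _ (hFE hjF)) hr, ?_⟩
  intro l hl
  by_contra hnl
  exact hj l hnl hl

/-- Lemma Q for rung sections at the positions `a 0 < a 1 < ... < a N`: every condition is
unbalanced in at least `card ι` of the gaps `1, ..., N - 1`. -/
theorem lemmaQS {L N q : ℕ} {a : ℕ → ℕ} {R : ℕ → ℕ → α} (hq : Q0 (Fintype.card ι) ≤ q)
    (hs : Snake S ends el L) (hR : ∀ t ≤ N, Rungs S ends (R t) (a t) q)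
    (hL : ∀ t ≤ N, a t + 2 * q ≤ L) (haa : ∀ t < N, a t + 2 * q + 1 < a (t + 1)) (hN : 1 ≤ N)
    (hfin : S.Finite) (bal : ι → Set α → Prop) (hbal : ∀ i, Bal S ends (bal i))
    (hun : ∀ i, ∃ s : Finset ℕ, s ⊆ Finset.Ico 1 N ∧ Fintype.card ι ≤ s.card ∧
      ∀ t ∈ s, ¬ bal i (ins S ends (Ico (a t + 2 * q) (a (t + 1))))) :
    Concl S ends bal L := by
  classical
  set m := Fintype.card ι with hm
  have hq2 : 2 ≤ q := by unfold Q0 at hq; omega
  -- cleaning
  have hclean : ∀ t, ∃ E : Finset ℕ, t ≤ N → (∀ j ∈ E, j < q) ∧ E.card = gQ m ∧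
      ∀ i, bal i (T el (R t) (a t) q (P el (a t) (a t + q)) E) ∨
        Gen (fun F => bal i (T el (R t) (a t) q (P el (a t) (a t + q)) F)) E := by
    intro t
    by_cases ht : t ≤ N
    swap
    · exact ⟨∅, fun h => absurd h ht⟩
    obtain ⟨E, hE, hEc, hEi⟩ := clean
      (fun i F => (∀ j ∈ F, j < q) ∧ bal i (T el (R t) (a t) q (P el (a t) (a t + q)) (F : Set ℕ)))
      (by
        rintro i F F' hFF ⟨h1, h2⟩
        exact ⟨fun j hj => h1 j (hFF hj), (hbal i).mono _ _ (T_mono Subset.rfl
          (Finset.coe_subset.2 hFF)) h2⟩)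
      (by
        rintro i F F' x hx y hy hxy ⟨h1, h2⟩ ⟨h3, h4⟩
        refine ⟨fun j hj => ?_, ?_⟩
        · rcases Finset.mem_union.1 hj with h | h
          · exact h1 j h
          · exact h3 j h
        · have hx' : x ∈ (F : Set ℕ) ∩ (F' : Set ℕ) := by
            rw [← Finset.coe_inter]; exact Finset.mem_coe.2 hx
          have hy' : y ∈ (F : Set ℕ) ∩ (F' : Set ℕ) := by
            rw [← Finset.coe_inter]; exact Finset.mem_coe.2 hy
          have := rungs_mod (hbal i) hs (hR t ht) (hL t ht)
            (fun j hj => h1 j (Finset.mem_coe.1 hj)) (fun j hj => h3 j (Finset.mem_coe.1 hj))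
            hx' hy' hxy h2 h4
          rwa [← Finset.coe_union] at this)
      (gQ m) Finset.univ (Finset.range q) (by
        rw [Finset.card_univ, Finset.card_range, ← hm]
        unfold Q0 at hq
        omega)
    have hEq : ∀ j ∈ E, j < q := fun j hj => Finset.mem_range.1 (hE hj)
    refine ⟨E, fun _ => ⟨hEq, hEc, fun i => ?_⟩⟩
    rcases hEi i (Finset.mem_univ _) with h | h
    · exact Or.inl h.2
    · right
      intro x hx y hy z hz h1 h2 h3 h4
      refine h x hx y hy z hz h1 h2 h3 ⟨?_, h4⟩
      intro j hj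
      simp only [Finset.mem_insert, Finset.mem_singleton] at hj
      rcases hj with rfl | rfl | rfl
      · exact hEq _ hx
      · exact hEq _ hy
      · exact hEq _ hz
  choose E hE using hclean
  have hg1 : (m + 1) * (m + 1) ≤ gQ m := by unfold gQ; omega
  have hg2 : m + 1 ≤ (m + 1) * (m + 1) := Nat.le_mul_of_pos_left _ (by omega)
  have hgm : m + 1 < gQ m := by unfold gQ; omega
  -- the aligned conditions
  set A : ℕ → Set α → Finset ι := fun t c =>
    Finset.univ.filter (fun i => bal i (T el (R t) (a t) q c (E t))) with hA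
  set B : ι → ℕ → Finset ℕ := fun i t => (Finset.Ico 1 t).filter
    (fun t' => ¬ bal i (ins S ends (Ico (a t' + 2 * q) (a (t' + 1))))) with hBdef
  have hAi : ∀ t c i, i ∈ A t c ↔ bal i (T el (R t) (a t) q c (E t)) := by
    intro t c i
    simp [hA]
  -- main induction
  have main : ∀ t, 1 ≤ t → t ≤ N → ∃ c, Ctx S ends el c (a t) q ∧
      ∀ i ∈ A t c, (A t c).card + (B i t).card ≤ m := by
    intro t ht
    induction t, ht using Nat.le_induction with
    | base =>
      intro _
      have h01 : a 0 + 2 * q + 1 < a 1 := haa 0 (by omega)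
      have hL1 := hL 1 hN
      have hR0 := hR 0 (by omega)
      refine ⟨insert (R 0 1) (P el 0 (a 1 + q)), ⟨?_, ?_, ?_⟩, ?_⟩
      · refine SDR.rp hs (by omega) (w := a 0 + q + 1) ⟨by omega, by omega⟩
          (hR0.hi (by omega)) ?_
        rintro ⟨z, h1, h2, h3⟩
        have h4 := hs.en z (by omega)
        rw [h3, hR0.en 1 (by omega), Sym2.eq_iff] at h4
        omega
      · refine insert_subset ?_ (P_sub hs (by omega))
        exact ins_mono (Ico_subset_Ico (by omega) (by omega)) (hR0.ins (show 1 < q by omega))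
      · exact fun w hw => Or.inr (P_mono (by omega) le_rfl hw)
      · intro i _
        have h1 : B i 1 = ∅ := by simp [hBdef]
        rw [h1, Finset.card_empty, add_zero, hm, ← Finset.card_univ]
        exact Finset.card_le_card (Finset.subset_univ _)
    | succ t ht ih =>
      intro htN
      obtain ⟨c, hc, hinv⟩ := ih (by omega)
      obtain ⟨e1, e2, e3⟩ := hE t (by omega)
      obtain ⟨e1', e2', e3'⟩ := hE (t + 1) (by omega)
      have hgap := haa t (by omega)
      have hBs : ∀ i, (B i (t + 1)).card ≤ (B i t).card + 1 := by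
        intro i
        have h1 : B i (t + 1) ⊆ insert t (B i t) := by
          intro y hy
          obtain ⟨h2, h3⟩ := Finset.mem_filter.1 hy
          rw [Finset.mem_Ico] at h2
          rw [Finset.mem_insert]
          rcases Nat.lt_or_ge y t with h | h
          · exact Or.inr (Finset.mem_filter.2 ⟨Finset.mem_Ico.2 ⟨h2.1, h⟩, h3⟩)
          · left; omega
        exact (Finset.card_le_card h1).trans (Finset.card_insert_le _ _)
      by_cases hex : ∃ i ∈ A t c, ¬ bal i (ins S ends (Ico (a t + 2 * q) (a (t + 1))))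
      · obtain ⟨i, hi, hib⟩ := hex
        -- the killing step for the family restricted to `i`: unbalanced gap for `i` only
        have hstep : ∃ c', Ctx S ends el c' (a (t + 1)) q ∧
            ∀ l, bal l (T el (R (t + 1)) (a (t + 1)) q c' (E (t + 1))) →
              bal l (T el (R t) (a t) q c (E t)) ∧ l ≠ i := by
          have hEs : ∀ i ∈ (E t : Set ℕ), i < q := fun i hi => e1 i (Finset.mem_coe.1 hi)
          have hEs' : ∀ i ∈ (E (t + 1) : Set ℕ), i < q := fun i hi => e1' i (Finset.mem_coe.1 hi)
          have hEc' : 1 < (E (t + 1)).card := by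
            rw [e2']; unfold gQ
            have : 1 * 1 ≤ (m + 1) * (m + 1) := Nat.mul_le_mul (by omega) (by omega)
            omega
          obtain ⟨j₁, hj₁, j₂, hj₂, hne⟩ := Finset.one_lt_card.1 hEc'
          obtain ⟨j₀, hj₀⟩ : (E t).Nonempty := by rw [← Finset.card_pos]; omega
          obtain ⟨z, e, hr, hz⟩ := exists_route (hbal i) hs (hR t (by omega)) (hR (t + 1) htN)
            (hL (t + 1) htN) hc hEs' (Finset.mem_coe.2 hj₁) (Finset.mem_coe.2 hj₂) hne
            (e1 _ hj₀) hgap (hfin.subset (fun x hx => hx.1)) hib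
          have hi' := (hAi t c i).1 hi
          have hall : ∀ j ∈ E t, ¬ bal i (T el (R (t + 1)) (a (t + 1)) q
              (nc el (R t) (a t) (a (t + 1)) q c j z e) (E (t + 1))) := by
            intro j hj hb
            exact hz (indep_rung (hbal i) hs (hR t (by omega)) (hR (t + 1) htN) (hL (t + 1) htN)
              hc hEs hEs' ⟨j₁, Finset.mem_coe.2 hj₁⟩ (Finset.mem_coe.2 hj) (Finset.mem_coe.2 hj₀)
              hr hi' hb)
          -- a good rung
          obtain ⟨F, hFE, hFc, hFi⟩ := indep_set
            (r := fun j y => ∃ l, ¬ bal l (T el (R t) (a t) q c (E t)) ∧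
              bal l (T el (R t) (a t) q c {j, y}))
            (by
              rintro x y ⟨l, h1, h2⟩
              refine ⟨l, h1, ?_⟩
              rwa [Set.pair_comm])
            (Fintype.card ι) (Fintype.card ι + 1) (E t)
            (fun x hx F hF h => deg hbal hs (hR t (by omega)) (hL t (by omega)) hc e1 e3 hx F hF h)
            (by rw [e2, ← hm]; exact hg1)
          have hgood : ∃ j ∈ F, ∀ l, ¬ bal l (T el (R t) (a t) q c (E t)) →
              ¬ bal l (T el (R (t + 1)) (a (t + 1)) q
                (nc el (R t) (a t) (a (t + 1)) q c j z e) (E (t + 1))) := by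
            by_contra hcon
            push Not at hcon
            have : Inhabited ι := ⟨i⟩
            have hch : ∀ y, ∃ l : ι, y ∈ F → ¬ bal l (T el (R t) (a t) q c (E t)) ∧
                bal l (T el (R (t + 1)) (a (t + 1)) q
                  (nc el (R t) (a t) (a (t + 1)) q c y z e) (E (t + 1))) := by
              intro y
              by_cases hy : y ∈ F
              · obtain ⟨l, hl⟩ := hcon y hy
                exact ⟨l, fun _ => hl⟩
              · exact ⟨i, fun h => absurd h hy⟩
            choose f hf using hch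
            have hle : F.card ≤ (Finset.univ : Finset ι).card := by
              refine Finset.card_le_card_of_injOn f
                (fun _ _ => Finset.mem_coe.2 (Finset.mem_univ _)) ?_
              intro y hy y' hy' he
              have hy1 := Finset.mem_coe.1 hy
              have hy1' := Finset.mem_coe.1 hy'
              by_contra hne'
              obtain ⟨g1, g2⟩ := hf y hy1
              obtain ⟨g3, g4⟩ := hf y' hy1'
              rw [← he] at g3 g4
              have := atmost (hbal _) hs (hR t (by omega)) (hR (t + 1) htN) (hL (t + 1) htN) hc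
                hEs' (Finset.mem_coe.2 hj₁) (Finset.mem_coe.2 hj₂)
                hne (e1 _ (hFE hy1)) (e1 _ (hFE hy1')) hr g2 g4
              exact hFi y hy1 y' hy1' hne' ⟨_, g1, this⟩
            rw [Finset.card_univ] at hle
            omega
          obtain ⟨j, hjF, hj⟩ := hgood
          refine ⟨nc el (R t) (a t) (a (t + 1)) q c j z e,
            nc_sdr hs (hR t (by omega)) (hL (t + 1) htN) hc (e1 _ (hFE hjF)) hr, ?_⟩
          intro l hl
          refine ⟨?_, ?_⟩
          · by_contra hnl
            exact hj l hnl hl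
          · rintro rfl
            exact hall j (hFE hjF) hl
        obtain ⟨c', hc', hl⟩ := hstep
        refine ⟨c', hc', ?_⟩
        have hsub : A (t + 1) c' ⊆ (A t c).erase i := by
          intro l hl'
          obtain ⟨h1, h2⟩ := hl l ((hAi _ _ _).1 hl')
          exact Finset.mem_erase.2 ⟨h2, (hAi _ _ _).2 h1⟩
        have hcd := Finset.card_le_card hsub
        rw [Finset.card_erase_of_mem hi] at hcd
        have hpos : 0 < (A t c).card := Finset.card_pos.2 ⟨i, hi⟩
        intro l hl'
        have h1 := hinv l (Finset.mem_of_mem_erase (hsub hl'))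
        have h2 := hBs l
        omega
      · push Not at hex
        have hr : Route S ends (a t + 2 * q) (el (a t + 2 * q)) (a t + 2 * q) (a (t + 1)) := by
          have := hL (t + 1) htN
          exact ⟨hs.mem _ (by omega), a t + 2 * q, a t + 2 * q + 1, hs.en _ (by omega), le_rfl,
            le_rfl, by omega, hgap⟩
        obtain ⟨c', hc', hl⟩ := stepR hbal hs (hR t (by omega)) (hR (t + 1) htN)
          (hL (t + 1) htN) hc e1 e1' e3 (by rw [e2, ← hm]; exact hg1)
          (by rw [e2']; omega) (by omega) hr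
        refine ⟨c', hc', ?_⟩
        have hsub : A (t + 1) c' ⊆ A t c := by
          intro l hl'
          exact (hAi _ _ _).2 (hl l ((hAi _ _ _).1 hl'))
        have hcd := Finset.card_le_card hsub
        intro l hl'
        have h1 := hinv l (hsub hl')
        have h2 : B l (t + 1) ⊆ B l t := by
          intro y hy
          obtain ⟨h3, h4⟩ := Finset.mem_filter.1 hy
          rw [Finset.mem_Ico] at h3
          refine Finset.mem_filter.2 ⟨Finset.mem_Ico.2 ⟨h3.1, ?_⟩, h4⟩
          rcases Nat.lt_or_ge y t with h | h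
          · exact h
          · have : y = t := by omega
            rw [this] at h4
            exact absurd (hex l (hsub hl')) h4
        have h5 := Finset.card_le_card h2
        omega
  obtain ⟨c, hc, hinv⟩ := main N hN le_rfl
  obtain ⟨e1, e2, e3⟩ := hE N le_rfl
  refine finish hbal hs (hR N le_rfl) (hL N le_rfl) hc e1 e3 (by rw [e2, ← hm]; exact hgm) ?_
  intro i hi
  obtain ⟨s, hs1, hs2, hs3⟩ := hun i
  have h1 := hinv i ((hAi _ _ _).2 hi)
  have hpos : 0 < (A N c).card := Finset.card_pos.2 ⟨i, (hAi _ _ _).2 hi⟩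
  have h2 : s ⊆ B i N := fun y hy => Finset.mem_filter.2 ⟨hs1 hy, hs3 y hy⟩
  have h3 := Finset.card_le_card h2
  omega

end C1Q
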