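import Pool.Agent.Helper47.DS.QS

/-!
# One step of the construction with a lane (Theorem D*, MP_5165fa)
-/

open Set BIC BICS
open scoped Matroid

namespace C1Q

universe u

variable {α V : Type*}

/-- a union of vertex-disjoint parts which are all balanced over `Z` is balanced over `Z` -/
lemma bal_biUnion {L N : Matroid α} [L.Finite] [N.Finite] {S : Set α} {ends : α → Sym2 V}
    (hB : Bic N S ends) {Z : Set α} {I : Finset ℕ} {A : ℕ → Set V}
    (hA : ∀ i ∈ I, ∀ j ∈ I, i ≠ j → Disjoint (A i) (A j)) {X : ℕ → Set α}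
    (hX : ∀ i ∈ I, X i ⊆ ins S ends (A i))
    (hb : ∀ i ∈ I, rk L (Z ∪ X i) ≤ rk L Z + rk N (X i)) :
    rk L (Z ∪ ⋃ i ∈ I, X i) ≤ rk L Z + rk N (⋃ i ∈ I, X i) := by
  classical
  induction I using Finset.induction_on with
  | empty => simp
  | insert i I hi ih =>
    have h1 := ih (fun a ha b hb => hA a (Finset.mem_insert_of_mem ha) b
      (Finset.mem_insert_of_mem hb)) (fun a ha => hX a (Finset.mem_insert_of_mem ha))
      (fun a ha => hb a (Finset.mem_insert_of_mem ha))
    have h2 := hb i (Finset.mem_insert_self _ _)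
    have e1 : (⋃ j ∈ insert i I, X j) = X i ∪ ⋃ j ∈ I, X j := by
      rw [Finset.set_biUnion_insert]
    rw [e1]
    set Y := ⋃ j ∈ I, X j with hY
    have hdis : Disjoint (A i) (⋃ j ∈ I, A j) := by
      rw [Set.disjoint_iUnion₂_right]
      intro j hj
      exact hA i (Finset.mem_insert_self _ _) j (Finset.mem_insert_of_mem hj)
        (fun h => hi (h ▸ hj))
    have hYi : Y ⊆ ins S ends (⋃ j ∈ I, A j) := by
      refine iUnion₂_subset ?_
      intro j hj
      exact (hX j (Finset.mem_insert_of_mem hj)).trans (ins_mono (subset_biUnion_of_mem hj))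
    have h3 := skew hB hdis (hX i (Finset.mem_insert_self _ _)) hYi
    have h4 := rk_submod L (Z ∪ X i) (Z ∪ Y)
    have h5 : rk L Z ≤ rk L ((Z ∪ X i) ∩ (Z ∪ Y)) :=
      rk_mono L (subset_inter subset_union_left subset_union_left)
    have e2 : Z ∪ X i ∪ (Z ∪ Y) = Z ∪ (X i ∪ Y) := by
      ext e; simp only [mem_union]; tauto
    rw [e2] at h4
    omega

end C1Q

namespace BICS

universe u

open C1Q

theorem stStmt : StStmt.{u} := by
  classical
  intro α L N _ _ S ends k u q N' hk hB hSL hQ C E U W hst hEk hEc hUW τ hLane hq gr hgr1 hgr2 hun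
  obtain ⟨pos, el, Len, a, R, hpos, hs, hR, haa, htile⟩ := hLane
  set S' := ins S ends W with hS'
  set ends' : α → Sym2 ℕ := fun e => (ends e).map pos with hends'
  have hS'L : S' ⊆ L.E := fun e he => hSL he.1
  have hB' : Bic N S' ends' := bic_map hB hpos
  have hEL : E ⊆ L.E := fun e he => hSL (hst.subE he).1
  have hCL : C ⊆ L.E := fun e he => hSL (hst.subC he).1
  have hEf : E.Finite := L.ground_finite.subset hEL
  have hCf : C.Finite := L.ground_finite.subset hCL
  -- an injection of `E` into `Fin (2 k)`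
  obtain ⟨f, hf⟩ : ∃ f : α → Fin (2 * k), InjOn f E := by
    have h1 : E.encard ≤ (univ : Set (Fin (2 * k))).encard := by
      rw [← hEf.cast_ncard_eq, Set.encard_univ]
      simp only [ENat.card_eq_coe_fintype_card, Fintype.card_fin]
      exact_mod_cast hEc
    have : Nonempty (Fin (2 * k)) := ⟨⟨0, by omega⟩⟩
    obtain ⟨f, _, hf⟩ := hEf.exists_injOn_of_encard_le h1
    exact ⟨f, hf⟩
  set I : Finset (Fin (2 * k)) → Set α := fun s => {e | e ∈ E ∧ f e ∈ s} with hI
  have hIE : ∀ s, I s ⊆ E := fun s e he => he.1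
  set bal : Finset (Fin (2 * k)) → Set α → Prop := fun s X =>
    (I s).ncard + 1 = k ∧ rk L ((C ∪ I s) ∪ (X ∩ S')) ≤ rk L (C ∪ I s) + rk N (X ∩ S') with hbaldef
  have hZ : ∀ s, C ∪ I s ⊆ ins S ends U := fun s =>
    union_subset hst.subC ((hIE s).trans hst.subE)
  have hover := fun s => quo_over hB hQ hUW (hZ s)
  have hbal : ∀ s, Bal S' ends' (bal s) := by
    intro s
    have h1 := bal_inst (L := L) hB' (hover s)
    constructor
    · rintro X Y hXY ⟨h2, h3⟩
      exact ⟨h2, h1.mono X Y hXY h3⟩
    · rintro X Y A A' hA hA' hX hY hZ' ⟨h2, h3⟩ ⟨_, h4⟩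
      exact ⟨h2, h1.mod X Y A A' hA hA' hX hY hZ' h3 h4⟩
  have hcard : Fintype.card (Finset (Fin (2 * k))) = 2 ^ (2 * k) := by
    rw [Fintype.card_finset, Fintype.card_fin]
  have hlo := hst.lo
  have hhi := hst.hi
  have hpow : 0 < 2 ^ (2 * k) := Nat.two_pow_pos _
  -- monotone positions
  have hmono : ∀ t t', t < t' → t' ≤ N' → a t + 2 * q + 1 < a t' := by
    intro t t' htt
    induction t', htt using Nat.le_induction with
    | base => intro h; exact haa t (by omega)
    | succ t' htt ih =>
      intro h
      have h1 := ih (by omega)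
      have h2 := haa t' (by omega)
      omega
  set gap : ℕ → Set α := fun t => ins S' ends' (Ico (a t + 2 * q) (a (t + 1))) with hgap
  -- every group gives an unbalanced gap
  have hgrp : ∀ (s : Finset (Fin (2 * k))) (p : ℕ), p < 2 ^ (2 * k) →
      ∃ t ∈ gr p, ¬ bal s (gap t) := by
    intro s p hp
    by_contra hcon
    push Not at hcon
    have hgr := hgr1 p hp
    -- the condition on the size holds as soon as the group is not empty
    have hne : (gr p).Nonempty := by
      rw [Finset.nonempty_iff_ne_empty]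
      intro h0
      have h1 := hun p hp
      rw [h0] at h1
      simp only [Finset.notMem_empty, iUnion_of_empty, iUnion_empty] at h1
      rw [rk_empty, rk_empty] at h1
      have h2 : rk N C ≤ C.ncard := rk_le_ncard N hCf
      omega
    obtain ⟨t₀, ht₀⟩ := hne
    obtain ⟨hIs, _⟩ := hcon t₀ ht₀
    have hgS : ∀ t, gap t ⊆ S' := fun t e he => he.1
    have h1 := bal_biUnion (L := L) (Z := C ∪ I s) hB' (I := gr p)
      (A := fun t => Ico (a t + 2 * q) (a (t + 1)))
      (by
        intro i hi j hj hij
        have hi' := Finset.mem_Ico.1 (hgr hi)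
        have hj' := Finset.mem_Ico.1 (hgr hj)
        rw [Set.disjoint_left]
        intro v hv hv'
        rcases lt_or_gt_of_ne hij with h | h
        · rcases Nat.lt_or_ge (i + 1) j with h2 | h2
          · have := hmono (i + 1) j h2 (by omega)
            have := hv.2; have := hv'.1; omega
          · have e : j = i + 1 := by omega
            subst e
            have := hv.2; have := hv'.1; omega
        · rcases Nat.lt_or_ge (j + 1) i with h2 | h2
          · have := hmono (j + 1) i h2 (by omega)
            have := hv'.2; have := hv.1; omega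
          · have e : i = j + 1 := by omega
            subst e
            have := hv'.2; have := hv.1; omega)
      (X := gap) (fun t _ => Subset.rfl)
      (by
        intro t ht
        obtain ⟨_, h2⟩ := hcon t ht
        rwa [inter_eq_self_of_subset_left (hgS t)] at h2)
    set K := ⋃ t ∈ gr p, gap t with hK
    have hKS : K ⊆ S' := iUnion₂_subset fun t _ => hgS t
    set X := ⋃ t ∈ gr p, ins S ends (τ t) with hX
    have hXK : X ⊆ K := by
      refine iUnion₂_mono ?_
      intro t ht
      have := Finset.mem_Ico.1 (hgr ht)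
      exact htile t (by omega)
    have h2 : rk N X + u ≤ rk L X := hun p hp
    have h3 := hQ X (C ∪ I s ∪ K) (hXK.trans subset_union_right)
      (union_subset (fun e he => (hZ s he).1) (fun e he => (hKS he).1))
    have h4 := skew hB hUW (hZ s) hKS
    have h5 : rk L (C ∪ I s) ≤ C.ncard + (I s).ncard :=
      (rk_le_ncard L (hCf.union (hEf.subset (hIE s)))).trans (Set.ncard_union_le _ _)
    have h6 : rk N C ≤ rk N (C ∪ I s) := rk_mono N subset_union_left
    omega
  have hN' : 1 ≤ N' := by
    obtain ⟨t, ht, _⟩ := hgrp ∅ 0 hpow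
    have := Finset.mem_Ico.1 (hgr1 0 hpow ht)
    omega
  have hunb : ∀ s : Finset (Fin (2 * k)), ∃ T : Finset ℕ, T ⊆ Finset.Ico 1 N' ∧
      Fintype.card (Finset (Fin (2 * k))) ≤ T.card ∧ ∀ t ∈ T, ¬ bal s (gap t) := by
    intro s
    have hch : ∀ p, ∃ t, p < 2 ^ (2 * k) → t ∈ gr p ∧ ¬ bal s (gap t) := by
      intro p
      by_cases hp : p < 2 ^ (2 * k)
      · obtain ⟨t, ht⟩ := hgrp s p hp
        exact ⟨t, fun _ => ht⟩
      · exact ⟨0, fun h => absurd h hp⟩
    choose g hg using hch
    refine ⟨(Finset.range (2 ^ (2 * k))).image g, ?_, ?_, ?_⟩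
    · intro t ht
      obtain ⟨p, hp, rfl⟩ := Finset.mem_image.1 ht
      exact hgr1 p (Finset.mem_range.1 hp) (hg p (Finset.mem_range.1 hp)).1
    · rw [hcard, Finset.card_image_of_injOn, Finset.card_range]
      intro p hp p' hp' he
      have hp1 : p < 2 ^ (2 * k) := by simpa using hp
      have hp1' : p' < 2 ^ (2 * k) := by simpa using hp'
      by_contra hne
      have h1 := (hg p hp1).1
      have h2 := (hg p' hp1').1
      rw [he] at h1
      exact Finset.disjoint_left.1 (hgr2 p hp1 p' hp1' hne) h1 h2
    · intro t ht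
      obtain ⟨p, hp, rfl⟩ := Finset.mem_image.1 ht
      exact (hg p (Finset.mem_range.1 hp)).2
  obtain ⟨x, B, l, hx, hSDR, hBs, hl, hlB, hgood⟩ := lemmaQS (by rw [hcard]; exact hq)
    hs (fun t ht => (hR t ht).2) (fun t ht => (hR t ht).1) haa hN'
    (L.ground_finite.subset hS'L) bal hbal hunb
  have hBS : B ⊆ S' := fun e he => (hBs he).1
  have hlS : l ∈ S' := hl.1
  have hBf : B.Finite := L.ground_finite.subset (hBS.trans hS'L)
  have hBi : N.Indep B := hSDR.indep hB' hBS
  have hBc : B.ncard = x := by rw [hSDR.ncard, Set.ncard_Ico_nat, Nat.sub_zero]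
  have hlBs : insert l B ⊆ ins S' ends' (Ico 0 x) := insert_subset hl hBs
  have hrlB : rk N (insert l B) ≤ x := by
    have := rk_le_of_ins hB' (finite_Ico 0 x) hlBs
    rwa [Set.ncard_Ico_nat, Nat.sub_zero] at this
  have hrB : rk N B = x := by rw [rk_indep hBi, hBc]
  have hrlB' : x ≤ rk N (insert l B) := by
    rw [← hrB]; exact rk_mono N (subset_insert _ _)
  -- vertex-disjointness gives disjointness
  have hdis : ∀ X Y : Set α, X ⊆ ins S ends U → Y ⊆ S' → Disjoint X Y := by
    intro X Y hX hY
    exact (ins_disj hUW).mono hX hY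
  have hCB : Disjoint C B := hdis C B hst.subC hBS
  have hEB : Disjoint E B := hdis E B hst.subE hBS
  have hlE : l ∉ E := fun h => Set.disjoint_left.1 (hdis E {l} hst.subE (by simpa using hlS)) h rfl
  have hlC : l ∉ C := fun h => Set.disjoint_left.1 (hdis C {l} hst.subC (by simpa using hlS)) h rfl
  have hCBc : (C ∪ B).ncard = C.ncard + x := by
    rw [Set.ncard_union_eq hCB hCf hBf, hBc]
  refine ⟨C ∪ B, insert l E, ⟨?_, ?_, ?_, ?_, ?_, ?_⟩, ?_⟩
  · refine union_subset (hst.subC.trans (ins_mono subset_union_left)) ?_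
    exact hBS.trans (ins_mono subset_union_right)
  · exact insert_subset (ins_mono subset_union_right hlS)
      (hst.subE.trans (ins_mono subset_union_left))
  · rw [Set.disjoint_left]
    rintro e (rfl | he) (h | h)
    · exact hlC h
    · exact hlB h
    · exact Set.disjoint_left.1 hst.disj he h
    · exact Set.disjoint_left.1 hEB he h
  · intro J hJ hJc
    by_cases hlJ : l ∈ J
    · -- new sets
      set J₀ := J \ {l} with hJ₀
      have hJ₀E : J₀ ⊆ E := by
        rintro e ⟨h1, h2⟩
        exact (hJ h1).resolve_left h2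
      have hJf : J.Finite := (hEf.insert l).subset hJ
      have hJ₀c : J₀.ncard + 1 = k := by
        rw [← hJc, hJ₀, Set.ncard_sdiff_singleton_add_one hlJ hJf]
      set s : Finset (Fin (2 * k)) := Finset.univ.filter (fun y => ∃ e ∈ J₀, f e = y) with hsdef
      have hIs : I s = J₀ := by
        ext e
        constructor
        · rintro ⟨h1, h2⟩
          obtain ⟨e', he', hee⟩ := (Finset.mem_filter.1 h2).2
          rwa [← hf (hJ₀E he') h1 hee]
        · intro he
          exact ⟨hJ₀E he, Finset.mem_filter.2 ⟨Finset.mem_univ _, e, he, rfl⟩⟩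
      obtain ⟨J₁, hJ01, hJ1E, hJ1c⟩ := Set.exists_subsuperset_card_eq hJ₀E
        (show J₀.ncard ≤ k by omega) hEk
      have hZi : L.Indep (C ∪ J₀) :=
        (hst.ind J₁ hJ1E hJ1c).subset (union_subset_union_right _ hJ01)
      have hg := hgood s
      have hlBS : insert l B ⊆ S' := insert_subset hlS hBS
      rw [hbaldef] at hg
      simp only [hIs, not_and, not_le] at hg
      have hg2 := hg hJ₀c
      rw [inter_eq_self_of_subset_left hlBS] at hg2
      have e1 : C ∪ B ∪ J = C ∪ J₀ ∪ insert l B := by
        ext e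
        simp only [mem_union, mem_insert_iff, hJ₀, mem_sdiff, mem_singleton_iff]
        by_cases hel : e = l
        · subst hel; simp [hlJ]
        · simp only [hel, not_false_eq_true, and_true, false_or]
          tauto
      rw [e1]
      have hZd : Disjoint C J₀ := hst.disj.symm.mono_right hJ₀E
      have hJ₀f : J₀.Finite := hEf.subset hJ₀E
      refine indep_of_rk ?_ ?_
      · exact union_subset (union_subset hCL (hJ₀E.trans hEL)) (hlBS.trans hS'L)
      · have h1 : (C ∪ J₀ ∪ insert l B).ncard ≤ (C ∪ J₀).ncard + (B.ncard + 1) :=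
          (Set.ncard_union_le _ _).trans (Nat.add_le_add_left (Set.ncard_insert_le _ _) _)
        have h2 := rk_indep hZi
        omega
    · -- old sets
      have hJE : J ⊆ E := fun e he => (hJ he).resolve_left (fun h => hlJ (h ▸ he))
      have hZi : L.Indep (C ∪ J) := hst.ind J hJE hJc
      have h1 := quo_over hB hQ hUW (Z := C ∪ J) (union_subset hst.subC (hJE.trans hst.subE))
        ∅ B (empty_subset _) hBS
      rw [union_empty, rk_empty] at h1
      have e1 : C ∪ B ∪ J = C ∪ J ∪ B := by
        rw [union_right_comm]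
      rw [e1]
      refine indep_of_rk ?_ ?_
      · exact union_subset (union_subset hCL (hJE.trans hEL)) (hBS.trans hS'L)
      · have h2 := rk_indep hZi
        have h3 : (C ∪ J ∪ B).ncard ≤ (C ∪ J).ncard + B.ncard := Set.ncard_union_le _ _
        omega
  · have h1 := skew hB hUW hst.subC hBS
    omega
  · have e1 : C ∪ B ∪ insert l E = C ∪ E ∪ insert l B := by
      ext e
      simp only [mem_union, mem_insert_iff]
      tauto
    rw [e1, hCBc]
    have h1 := rk_union_le' N (C ∪ E) (insert l B)
    omega
  · rw [Set.ncard_insert_of_notMem hlE hEf]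

end BICS
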